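import Mathlib
import Pool.Agent.helper11.WH.Defs

/-! WH project, module CH : chains (developed against `pairs_real`). -/

set_option autoImplicit false

namespace Pool.Agent.helper11.WH

open Finset

theorem chains_real_of
    (pairs : ∀ P : Finset (ℝ × ℝ), ∃ Z : Finset (ℝ × ℝ), 1000 * Z.card ≤ 999 * P.card ∧
      ∀ p ∈ P, ∀ q ∈ P, p < q → ∃ z ∈ Z, p ≤ z ∧ z ≤ q)
    (r : ℕ) (P : Finset (ℝ × ℝ)) :
    ∃ Z : Finset (ℝ × ℝ), (Z.card : ℝ) ≤ (999 / 1000 : ℝ) ^ r * P.card ∧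
      ∀ f : ℕ → ℝ × ℝ, (∀ i, i < 2 ^ r → f i ∈ P) → (∀ i, i + 1 < 2 ^ r → f i < f (i + 1)) →
        ∃ z ∈ Z, f 0 ≤ z ∧ z ≤ f (2 ^ r - 1) := by
  induction r generalizing P with
  | zero =>
    refine ⟨P, by simp, fun f hf _ => ⟨f 0, hf 0 (by norm_num), le_rfl, le_rfl⟩⟩
  | succ r ih =>
    obtain ⟨Z1, hZ1, hp⟩ := pairs P
    obtain ⟨Z, hZ, hc⟩ := ih Z1
    refine ⟨Z, ?_, ?_⟩
    · have h1 : (1000 : ℝ) * (Z1.card : ℝ) ≤ 999 * (P.card : ℝ) := by exact_mod_cast hZ1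
      have h2 : (Z1.card : ℝ) ≤ 999 / 1000 * (P.card : ℝ) := by linarith
      have h3 : (0 : ℝ) ≤ (999 / 1000 : ℝ) ^ r := by positivity
      calc (Z.card : ℝ) ≤ (999 / 1000 : ℝ) ^ r * Z1.card := hZ
        _ ≤ (999 / 1000 : ℝ) ^ r * (999 / 1000 * (P.card : ℝ)) := mul_le_mul_of_nonneg_left h2 h3
        _ = (999 / 1000 : ℝ) ^ (r + 1) * P.card := by ring
    · intro f hf hlt
      have hpow : 2 ^ (r + 1) = 2 * 2 ^ r := by ring
      have hpos : 0 < 2 ^ r := by positivity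
      have key : ∀ i, ∃ z, i < 2 ^ r → (z ∈ Z1 ∧ f (2 * i) ≤ z ∧ z ≤ f (2 * i + 1)) := by
        intro i
        by_cases hi : i < 2 ^ r
        · obtain ⟨z, hz, h1, h2⟩ := hp (f (2 * i)) (hf _ (by omega)) (f (2 * i + 1))
            (hf _ (by omega)) (hlt _ (by omega))
          exact ⟨z, fun _ => ⟨hz, h1, h2⟩⟩
        · exact ⟨0, fun h => absurd h hi⟩
      choose g hg using key
      obtain ⟨z, hz, h1, h2⟩ := hc g (fun i hi => (hg i hi).1) (by
        intro i hi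
        have ha := (hg i (by omega)).2.2
        have hb := (hg (i + 1) hi).2.1
        have hm : f (2 * i + 1) < f (2 * i + 1 + 1) := hlt _ (by omega)
        have he : 2 * (i + 1) = 2 * i + 1 + 1 := by ring
        rw [he] at hb
        exact lt_of_le_of_lt ha (lt_of_lt_of_le hm hb))
      refine ⟨z, hz, ?_, ?_⟩
      · have := (hg 0 hpos).2.1
        simp only [mul_zero] at this
        exact le_trans this h1
      · have := (hg (2 ^ r - 1) (by omega)).2.2
        have he : 2 * (2 ^ r - 1) + 1 = 2 ^ (r + 1) - 1 := by omega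
        rw [he] at this
        exact le_trans h2 this

end Pool.Agent.helper11.WH
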