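import Mathlib
import Pool.Agent.helper11.WH.Defs

/-! WH project, module FI : final (developed against `chains_real` and `erdos_szekeres`). -/

set_option autoImplicit false

namespace Pool.Agent.helper11.WH

open Finset

theorem rich_of (rf : ℝ × ℝ → ℝ × ℝ) (hrf : ∀ p, rf p = (p.1, -p.2))
    (chains : ∀ (r : ℕ) (P : Finset (ℝ × ℝ)),
      ∃ Z : Finset (ℝ × ℝ), (Z.card : ℝ) ≤ (999 / 1000 : ℝ) ^ r * P.card ∧
      ∀ f : ℕ → ℝ × ℝ, (∀ i, i < 2 ^ r → f i ∈ P) → (∀ i, i + 1 < 2 ^ r → f i < f (i + 1)) →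
        ∃ z ∈ Z, f 0 ≤ z ∧ z ≤ f (2 ^ r - 1))
    (es : ∀ (m : ℕ) (P : Finset (ℝ × ℝ)), (m - 1) ^ 2 < P.card →
      (∃ f : ℕ → ℝ × ℝ, (∀ i, i < m → f i ∈ P) ∧ ∀ i, i + 1 < m → f i < f (i + 1)) ∨
      (∃ f : ℕ → ℝ × ℝ, (∀ i, i < m → f i ∈ P) ∧ ∀ i, i + 1 < m → rf (f i) < rf (f (i + 1))))
    (r : ℕ) (A : Finset (ℝ × ℝ)) :
    ∃ A' : Finset (ℝ × ℝ), (A'.card : ℝ) ≤ 2 * (999 / 1000 : ℝ) ^ r * A.card ∧
      ∀ x₁ x₂ y₁ y₂ : ℝ,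
        4 ^ r ≤ (A.filter (fun p => x₁ ≤ p.1 ∧ p.1 ≤ x₂ ∧ y₁ ≤ p.2 ∧ p.2 ≤ y₂)).card →
        ∃ q ∈ A', x₁ ≤ q.1 ∧ q.1 ≤ x₂ ∧ y₁ ≤ q.2 ∧ q.2 ≤ y₂ := by
  classical
  obtain ⟨Z, hZ, hc⟩ := chains r A
  obtain ⟨Z', hZ', hc'⟩ := chains r (A.image rf)
  refine ⟨Z ∪ Z'.image rf, ?_, ?_⟩
  · have h1 : (((Z ∪ Z'.image rf).card : ℕ) : ℝ) ≤ (Z.card : ℝ) + (Z'.card : ℝ) := by
      have ha := Finset.card_union_le Z (Z'.image rf)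
      have hb : (Z'.image rf).card ≤ Z'.card := Finset.card_image_le
      have hc3 : (Z ∪ Z'.image rf).card ≤ Z.card + Z'.card := by omega
      exact_mod_cast hc3
    have h2 : (((A.image rf).card : ℕ) : ℝ) ≤ (A.card : ℝ) := by
      exact_mod_cast Finset.card_image_le
    have h3 : (0 : ℝ) ≤ (999 / 1000 : ℝ) ^ r := by positivity
    have h4 := mul_le_mul_of_nonneg_left h2 h3
    calc (((Z ∪ Z'.image rf).card : ℕ) : ℝ) ≤ (Z.card : ℝ) + (Z'.card : ℝ) := h1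
      _ ≤ (999 / 1000 : ℝ) ^ r * A.card + (999 / 1000 : ℝ) ^ r * A.card :=
          add_le_add hZ (le_trans hZ' h4)
      _ = 2 * (999 / 1000 : ℝ) ^ r * A.card := by ring
  · intro x₁ x₂ y₁ y₂ hcard
    set B := A.filter (fun p => x₁ ≤ p.1 ∧ p.1 ≤ x₂ ∧ y₁ ≤ p.2 ∧ p.2 ≤ y₂) with hB
    have hpos : 0 < 2 ^ r := by positivity
    have hlt : (2 ^ r - 1) ^ 2 < B.card := by
      refine lt_of_lt_of_le ?_ hcard
      have h4 : (4 : ℕ) ^ r = (2 ^ r) ^ 2 := by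
        rw [← pow_mul, mul_comm, pow_mul]; norm_num
      rw [h4]
      exact Nat.pow_lt_pow_left (by omega) (by norm_num)
    rcases es (2 ^ r) B hlt with ⟨f, hfB, hf⟩ | ⟨f, hfB, hf⟩
    · obtain ⟨z, hz, h1, h2⟩ := hc f (fun i hi => (Finset.mem_filter.1 (hfB i hi)).1) hf
      have ha := (Finset.mem_filter.1 (hfB 0 hpos)).2
      have hb := (Finset.mem_filter.1 (hfB (2 ^ r - 1) (by omega))).2
      refine ⟨z, Finset.mem_union_left _ hz, ?_, ?_, ?_, ?_⟩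
      · exact le_trans ha.1 h1.1
      · exact le_trans h2.1 hb.2.1
      · exact le_trans ha.2.2.1 h1.2
      · exact le_trans h2.2 hb.2.2.2
    · obtain ⟨z, hz, h1, h2⟩ := hc' (fun i => rf (f i))
        (fun i hi => Finset.mem_image_of_mem _ (Finset.mem_filter.1 (hfB i hi)).1) hf
      have ha := (Finset.mem_filter.1 (hfB 0 hpos)).2
      have hb := (Finset.mem_filter.1 (hfB (2 ^ r - 1) (by omega))).2
      simp only [hrf] at h1 h2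
      have h11 : (f 0).1 ≤ z.1 := h1.1
      have h12 : -(f 0).2 ≤ z.2 := h1.2
      have h21 : z.1 ≤ (f (2 ^ r - 1)).1 := h2.1
      have h22 : z.2 ≤ -(f (2 ^ r - 1)).2 := h2.2
      refine ⟨rf z, Finset.mem_union_right _ (Finset.mem_image_of_mem _ hz), ?_, ?_, ?_, ?_⟩
      · rw [hrf]; exact le_trans ha.1 h11
      · rw [hrf]; exact le_trans h21 hb.2.1
      · rw [hrf]; have := hb.2.2.1; show y₁ ≤ -z.2; linarith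
      · rw [hrf]; have := ha.2.2.2; show -z.2 ≤ y₂; linarith

theorem pow_quarter : (999 / 1000 : ℝ) ^ 1386 ≤ 1 / 4 := by
  have h : (999 / 1000 : ℝ) ^ 693 ≤ 1 / 2 := by
    rw [div_pow, div_le_div_iff₀ (by positivity) (by norm_num)]
    have : (999 : ℕ) ^ 693 * 2 ≤ 1 * 1000 ^ 693 := by decide +kernel
    exact_mod_cast this
  have h0 : (0 : ℝ) ≤ (999 / 1000 : ℝ) ^ 693 := by positivity
  calc (999 / 1000 : ℝ) ^ 1386 = (999 / 1000 : ℝ) ^ 693 * (999 / 1000 : ℝ) ^ 693 := by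
        rw [← pow_add]
    _ ≤ 1 / 2 * (1 / 2) := mul_le_mul h h h0 (by norm_num)
    _ = 1 / 4 := by norm_num

theorem half_of
    (rich : ∀ (r : ℕ) (A : Finset (ℝ × ℝ)),
      ∃ A' : Finset (ℝ × ℝ), (A'.card : ℝ) ≤ 2 * (999 / 1000 : ℝ) ^ r * A.card ∧
      ∀ x₁ x₂ y₁ y₂ : ℝ,
        4 ^ r ≤ (A.filter (fun p => x₁ ≤ p.1 ∧ p.1 ≤ x₂ ∧ y₁ ≤ p.2 ∧ p.2 ≤ y₂)).card →
        ∃ q ∈ A', x₁ ≤ q.1 ∧ q.1 ≤ x₂ ∧ y₁ ≤ q.2 ∧ q.2 ≤ y₂)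
    (A : Finset (ℝ × ℝ)) :
    ∃ A' : Finset (ℝ × ℝ), A'.card ≤ A.card / 2 ∧
      ∀ x₁ x₂ y₁ y₂ : ℝ,
        4 ^ 1386 ≤ (A.filter (fun p => x₁ ≤ p.1 ∧ p.1 ≤ x₂ ∧ y₁ ≤ p.2 ∧ p.2 ≤ y₂)).card →
        ∃ q ∈ A', x₁ ≤ q.1 ∧ q.1 ≤ x₂ ∧ y₁ ≤ q.2 ∧ q.2 ≤ y₂ := by
  obtain ⟨A', h1, h2⟩ := rich 1386 A
  refine ⟨A', ?_, h2⟩
  rw [Nat.le_div_iff_mul_le (by norm_num)]
  have h3 : (0 : ℝ) ≤ (A.card : ℝ) := by positivity
  have h4 : (A'.card : ℝ) ≤ 1 / 2 * (A.card : ℝ) := by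
    calc (A'.card : ℝ) ≤ 2 * (999 / 1000 : ℝ) ^ 1386 * A.card := h1
      _ = 2 * ((999 / 1000 : ℝ) ^ 1386 * A.card) := by ring
      _ ≤ 2 * (1 / 4 * A.card) :=
          mul_le_mul_of_nonneg_left (mul_le_mul_of_nonneg_right pow_quarter h3) (by norm_num)
      _ = 1 / 2 * (A.card : ℝ) := by ring
  have h5 : (A'.card : ℝ) * 2 ≤ (A.card : ℝ) := by linarith
  exact_mod_cast h5

end Pool.Agent.helper11.WH
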